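import Pool.Agent.T2H11.SM.Main

set_option autoImplicit false

/-!
# Asymptotic form
-/

open Finset Filter Topology

namespace Pool.Agent.T2H11.SM

/-- `x ^ m exp (- b x)` is small -/
lemma small_nat {b : ℝ} (hb : 0 < b) (m : ℕ) (D : ℝ) :
    Tendsto (fun k : ℕ => D * ((k : ℝ) ^ m * Real.exp (-(b * k)))) atTop (𝓝 0) := by
  have h1 := (isLittleO_pow_exp_pos_mul_atTop m hb).tendsto_div_nhds_zero
  have h2 := (h1.comp tendsto_natCast_atTop_atTop).const_mul D
  rw [mul_zero] at h2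
  refine h2.congr fun k => ?_
  simp only [Function.comp_apply]
  rw [Real.exp_neg, div_eq_mul_inv]

/-- the numerical part -/
lemma numeric {M ε : ℝ} (hM : 1 ≤ M) (hε : 0 < ε) :
    ∃ K : ℕ, ∀ k : ℕ, K ≤ k → 1 ≤ k ∧
      (k : ℝ) * (k * Real.exp (-(ε * k - M / ε)) + Real.exp (-(ε ^ 2 / (16 * M ^ 2) * k))) ≤
        ε / 2 ∧
      (k : ℝ) ^ 2 * Real.exp (-(ε / 2 * k - M / ε)) ≤ ε / 2 := by
  have hb : 0 < ε ^ 2 / (16 * M ^ 2) := by positivity
  have h1 := small_nat hε 2 (Real.exp (M / ε))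
  have h2 := small_nat hb 1 1
  have h3 := small_nat (half_pos hε) 2 (Real.exp (M / ε))
  have e4 : (0:ℝ) < ε / 4 := by positivity
  have h1' := (tendsto_order.1 h1).2 _ e4
  have h2' := (tendsto_order.1 h2).2 _ e4
  have h3' := (tendsto_order.1 h3).2 _ e4
  obtain ⟨K, hK⟩ := eventually_atTop.1 (h1'.and (h2'.and (h3'.and (eventually_ge_atTop 1))))
  refine ⟨K, fun k hk => ?_⟩
  obtain ⟨a1, a2, a3, a4⟩ := hK k hk
  refine ⟨a4, ?_, ?_⟩
  · have e1 : Real.exp (-(ε * k - M / ε)) = Real.exp (M / ε) * Real.exp (-(ε * k)) := by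
      rw [← Real.exp_add]; congr 1; ring
    rw [e1]
    have e2 : (k : ℝ) * (k * (Real.exp (M / ε) * Real.exp (-(ε * k))) +
        Real.exp (-(ε ^ 2 / (16 * M ^ 2) * k))) =
        Real.exp (M / ε) * ((k : ℝ) ^ 2 * Real.exp (-(ε * k))) +
        1 * ((k : ℝ) ^ 1 * Real.exp (-(ε ^ 2 / (16 * M ^ 2) * k))) := by ring
    rw [e2]
    linarith
  · have e1 : Real.exp (-(ε / 2 * k - M / ε)) = Real.exp (M / ε) * Real.exp (-(ε / 2 * k)) := by
      rw [← Real.exp_add]; congr 1; ring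
    rw [e1]
    have e2 : (k : ℝ) ^ 2 * (Real.exp (M / ε) * Real.exp (-(ε / 2 * k))) =
        Real.exp (M / ε) * ((k : ℝ) ^ 2 * Real.exp (-(ε / 2 * k))) := by ring
    rw [e2]
    linarith

lemma es_univ {V : Type} [Fintype V] [LinearOrder V] : Es (univ : Finset V) = Ed V := by
  ext e
  induction e using Sym2.ind with
  | _ x y =>
    rw [mk_mem_es, mem_ed, Sym2.mk_isDiag_iff]
    simp

/-- **Cliques in random graphs with independent edges.** -/
theorem clique_whp {M ε : ℝ} (hM : 1 ≤ M) (hε : 0 < ε) (hε1 : ε ≤ 1) :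
    ∃ K : ℕ, ∀ k : ℕ, K ≤ k → ∀ (V : Type) [Fintype V] [LinearOrder V] (p : Sym2 V → ℝ) (c : ℝ),
      (∀ e, ¬ e.IsDiag → Real.exp (-M) ≤ p e ∧ p e ≤ 1) → 0 ≤ c → c ≤ M →
      ∑ e ∈ Ed V, -Real.log (p e) ≤ c * ((Fintype.card V : ℝ) ^ 2 / 2) →
      Real.exp ((c / 2 + ε) * k) ≤ Fintype.card V →
      1 - ε ≤ prob p (fun G => ¬ G.CliqueFree k) := by
  obtain ⟨K, hK⟩ := numeric hM hε
  refine ⟨K, fun k hk V _ _ p c hp hc0 hcM hsum hn => ?_⟩
  obtain ⟨hk1, hn1, hn2⟩ := hK k hk
  have hkr : (1:ℝ) ≤ k := by exact_mod_cast hk1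
  have hV : Nonempty V := by
    rw [← Fintype.card_pos_iff]
    have : (0:ℝ) < Fintype.card V := (Real.exp_pos _).trans_le hn
    exact_mod_cast this
  set u : Sym2 V → ℝ := fun e => -Real.log (p e) with hu
  have hp0 : ∀ e, ¬ e.IsDiag → 0 < p e := fun e he => (Real.exp_pos _).trans_le (hp e he).1
  have hw0 : ∀ x y, 0 ≤ wt u x y := by
    intro x y
    unfold wt
    split_ifs with h
    · exact le_rfl
    · have hd : ¬ (s(x, y) : Sym2 V).IsDiag := by simpa using h
      exact neg_nonneg.2 (Real.log_nonpos (hp0 _ hd).le (hp _ hd).2)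
  have hwM : ∀ x y, wt u x y ≤ M := by
    intro x y
    unfold wt
    split_ifs with h
    · linarith
    · have hd : ¬ (s(x, y) : Sym2 V).IsDiag := by simpa using h
      have h1 := Real.log_le_log (Real.exp_pos _) (hp _ hd).1
      rw [Real.log_exp] at h1
      show -Real.log (p s(x, y)) ≤ M
      linarith
  have hdiag : ∀ x, wt u x x = 0 := fun x => by unfold wt; rw [if_pos rfl]
  have hEn : En (wt u) univ ≤ c * (Fintype.card V : ℝ) ^ 2 := by
    unfold En
    rw [← two_W, es_univ]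
    linarith
  obtain ⟨X, hX, hXc, hXd⟩ := exists_regular_set (wt u) hw0 (wt_symm u) hdiag hEn hε
  set s : ℝ := (X.card : ℝ) with hs
  have hs0 : 0 < s := by rw [hs]; exact_mod_cast hX.card_pos
  -- size of `X`
  have hsl : Real.exp (ε * k - M / ε + c / 2 * k) ≤ s := by
    refine le_trans ?_ hXc
    have h1 : Real.exp ((c / 2 + ε) * k) * Real.exp (-(c / ε)) ≤
        (Fintype.card V : ℝ) * Real.exp (-(c / ε)) :=
      mul_le_mul_of_nonneg_right hn (Real.exp_pos _).le
    refine le_trans ?_ h1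
    rw [← Real.exp_add]
    apply Real.exp_le_exp.2
    have h2 : c / ε ≤ M / ε := div_le_div_of_nonneg_right hcM hε.le
    nlinarith
  have hc2 : 0 ≤ c / 2 * k := by positivity
  have hsl2 : Real.exp (ε * k - M / ε) ≤ s :=
    le_trans (Real.exp_le_exp.2 (by linarith)) hsl
  -- typical tuples
  set c' := c + ε / 2 with hc'
  set C := (c' + ε / 2) * k with hC
  set l := ε / (4 * M ^ 2) with hl
  have hM0 : 0 < M := by linarith
  have hl0 : 0 ≤ l := by positivity
  have hlM' : l * M = ε / (4 * M) := by rw [hl]; field_simp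
  have hlM : l * M ≤ 1 := by
    rw [hlM', div_le_one (by positivity)]
    linarith
  have hgood := card_good (k := k) X hX hw0 hwM hdiag hl0 hlM (by positivity : 0 ≤ c') (C := C) hXd
  have hexp : (k : ℝ) * (l * c' + (l * M) ^ 2) - l * C = -(ε ^ 2 / (16 * M ^ 2) * k) := by
    rw [hlM', hC, hl]
    field_simp
    ring
  rw [hexp, ← hs] at hgood
  set g : ℝ := ((Good (wt u) X k C).card : ℝ) with hg
  have hg1 : 1 - ε / 2 ≤ g / s ^ k := by
    rw [le_div_iff₀ (by positivity)]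
    have h1 : s ^ (k - 1) = s ^ k / s := by
      rw [eq_div_iff hs0.ne', ← pow_succ]
      congr 1
      omega
    rw [h1] at hgood
    have h2 : (k : ℝ) * (s ^ k / s) ≤ s ^ k * (k * Real.exp (-(ε * k - M / ε))) := by
      have h3 : 1 / s ≤ Real.exp (-(ε * k - M / ε)) := by
        rw [Real.exp_neg, ← one_div]
        exact one_div_le_one_div_of_le (Real.exp_pos _) hsl2
      calc (k : ℝ) * (s ^ k / s) = s ^ k * (k * (1 / s)) := by ring
        _ ≤ _ := by
          refine mul_le_mul_of_nonneg_left (mul_le_mul_of_nonneg_left h3 (by positivity))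
            (by positivity)
    have h3 : (k : ℝ) * (k * (s ^ k / s) + s ^ k * Real.exp (-(ε ^ 2 / (16 * M ^ 2) * k))) ≤
        s ^ k * (ε / 2) := by
      calc (k : ℝ) * (k * (s ^ k / s) + s ^ k * Real.exp (-(ε ^ 2 / (16 * M ^ 2) * k)))
          ≤ k * (s ^ k * (k * Real.exp (-(ε * k - M / ε))) +
            s ^ k * Real.exp (-(ε ^ 2 / (16 * M ^ 2) * k))) := by
            refine mul_le_mul_of_nonneg_left ?_ (by positivity)
            linarith
        _ = s ^ k * (k * (k * Real.exp (-(ε * k - M / ε)) +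
            Real.exp (-(ε ^ 2 / (16 * M ^ 2) * k)))) := by ring
        _ ≤ _ := mul_le_mul_of_nonneg_left hn1 (by positivity)
    nlinarith
  have hgpos : 0 < (Good (wt u) X k C).card := by
    by_contra hcon
    have h0 : (Good (wt u) X k C).card = 0 := by omega
    rw [hg, h0] at hg1
    simp only [Nat.cast_zero, zero_div] at hg1
    linarith
  have hfin := prob_clique (k := k) (C := C) hp0 (fun e he => (hp e he).2) hX hgpos
  refine le_trans ?_ hfin
  have h5 : (k : ℝ) ^ 2 * Real.exp (C / 2) / s ≤ ε / 2 := by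
    refine le_trans ?_ hn2
    rw [div_le_iff₀ hs0, mul_assoc]
    refine mul_le_mul_of_nonneg_left ?_ (by positivity)
    have h6 : Real.exp (C / 2) = Real.exp (-(ε / 2 * k - M / ε)) *
        Real.exp (ε * k - M / ε + c / 2 * k) := by
      rw [← Real.exp_add]
      congr 1
      rw [hC, hc']
      ring
    rw [h6]
    exact mul_le_mul_of_nonneg_left hsl (Real.exp_pos _).le
  have h6 : 1 - ε / 2 ≤ Real.exp (-(k ^ 2 * Real.exp (C / 2) / s)) := by
    have := Real.add_one_le_exp (-((k : ℝ) ^ 2 * Real.exp (C / 2) / s))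
    linarith
  have h7 : (1 - ε / 2) * (1 - ε / 2) ≤ g / s ^ k * Real.exp (-(k ^ 2 * Real.exp (C / 2) / s)) :=
    mul_le_mul hg1 h6 (by linarith) (by linarith)
  nlinarith [sq_nonneg ε]

end Pool.Agent.T2H11.SM
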