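import Mathlib

set_option autoImplicit false

/-!
# Large vertex sets with bounded potentials
-/

open Finset

namespace Pool.Agent.T2H11.SM

variable {V : Type} [Fintype V] [DecidableEq V]

/-- total weight of ordered pairs inside `X` -/
def En (w : V → V → ℝ) (X : Finset V) : ℝ := ∑ x ∈ X, ∑ y ∈ X, w x y

omit [Fintype V] in
lemma En_erase {w : V → V → ℝ} (hsym : ∀ x y, w x y = w y x) (hdiag : ∀ x, w x x = 0)
    {X : Finset V} {x : V} (hx : x ∈ X) : En w (X.erase x) = En w X - 2 * ∑ y ∈ X, w x y := by
  unfold En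
  have h1 : ∑ a ∈ X, ∑ b ∈ X, w a b = ∑ b ∈ X, w x b + ∑ a ∈ X.erase x, ∑ b ∈ X, w a b := by
    rw [← add_sum_erase X _ hx]
  have h2 : ∀ a ∈ X.erase x, ∑ b ∈ X, w a b = w a x + ∑ b ∈ X.erase x, w a b := by
    intro a _
    rw [← add_sum_erase X _ hx]
  rw [h1, sum_congr rfl h2, sum_add_distrib]
  have h3 : ∑ a ∈ X.erase x, w a x = ∑ b ∈ X, w x b := by
    rw [← add_sum_erase X (fun b => w x b) hx, hdiag, zero_add]
    exact sum_congr rfl fun a _ => hsym a x
  rw [h3]
  ring

/-- Deleting single vertices one finds a large set in which no vertex has a large potential. -/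
theorem exists_regular_set [Nonempty V] (w : V → V → ℝ) (hw0 : ∀ x y, 0 ≤ w x y)
    (hsym : ∀ x y, w x y = w y x) (hdiag : ∀ x, w x x = 0) {c τ : ℝ}
    (hc : En w univ ≤ c * (Fintype.card V : ℝ) ^ 2) (hτ : 0 < τ) :
    ∃ X : Finset V, X.Nonempty ∧ (Fintype.card V : ℝ) * Real.exp (-(c / τ)) ≤ X.card ∧
      ∀ x ∈ X, ∑ y ∈ X, w x y ≤ (c + τ / 2) * X.card := by
  classical
  set n : ℝ := (Fintype.card V : ℝ) with hn
  have hn0 : 0 < n := by rw [hn]; exact_mod_cast Fintype.card_pos
  have hE0 : ∀ X : Finset V, 0 ≤ En w X := fun X => sum_nonneg fun x _ => sum_nonneg fun y _ => hw0 x y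
  have hc0 : 0 ≤ c := by
    by_contra h
    push Not at h
    have := hE0 univ
    nlinarith [sq_nonneg n, pow_pos hn0 2]
  let F : Finset V → ℝ := fun X => En w X / (X.card : ℝ) ^ 2 - τ * Real.log X.card
  obtain ⟨X, hX, hmin⟩ := exists_min_image ((univ : Finset (Finset V)).filter (fun X => X.Nonempty)) F
    ⟨univ, by simp⟩
  rw [mem_filter] at hX
  have hXn := hX.2
  have hmin' : ∀ Y : Finset V, Y.Nonempty → F X ≤ F Y := fun Y hY => hmin Y (by simp [hY])
  set s : ℝ := (X.card : ℝ) with hs
  have hs1 : 1 ≤ s := by rw [hs]; exact_mod_cast hXn.card_pos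
  have hs0 : 0 < s := by linarith
  have hsn : s ≤ n := by rw [hs, hn]; exact_mod_cast card_le_univ X
  -- energy bound
  have hFu := hmin' univ univ_nonempty
  have hFu' : En w X / s ^ 2 - τ * Real.log s ≤ c - τ * Real.log n := by
    refine hFu.trans ?_
    show En w univ / ((univ : Finset V).card : ℝ) ^ 2 - τ * Real.log (univ : Finset V).card ≤ _
    rw [card_univ, ← hn]
    have : En w univ / n ^ 2 ≤ c := by
      rw [div_le_iff₀ (by positivity)]; exact hc
    linarith
  have hlog : Real.log s ≤ Real.log n := Real.log_le_log hs0 hsn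
  have hEs : En w X ≤ c * s ^ 2 := by
    have : En w X / s ^ 2 ≤ c := by nlinarith
    rwa [div_le_iff₀ (by positivity)] at this
  refine ⟨X, hXn, ?_, ?_⟩
  · have h1 : 0 ≤ En w X / s ^ 2 := div_nonneg (hE0 X) (by positivity)
    have h2 : τ * (Real.log n - Real.log s) ≤ c := by linarith
    have h3 : Real.log n - Real.log s ≤ c / τ := by
      rw [le_div_iff₀ hτ]; linarith
    have h4 : Real.log n + -(c / τ) ≤ Real.log s := by linarith
    have h5 := Real.exp_le_exp.2 h4
    rw [Real.exp_add, Real.exp_log hn0, Real.exp_log hs0] at h5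
    exact h5
  · intro x hx
    by_cases h1 : X.card = 1
    · obtain ⟨a, ha⟩ := card_eq_one.1 h1
      rw [ha, mem_singleton] at hx
      rw [ha, sum_singleton, hx, hdiag, card_singleton]
      positivity
    · have h2 : 2 ≤ X.card := by
        have := hXn.card_pos
        omega
      have hs2 : 2 ≤ s := by rw [hs]; exact_mod_cast h2
      have hYn : (X.erase x).Nonempty := by
        rw [← card_pos, card_erase_of_mem hx]; omega
      have h3 := hmin' _ hYn
      have hcard : ((X.erase x).card : ℝ) = s - 1 := by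
        rw [card_erase_of_mem hx, Nat.cast_sub (by omega), ← hs]; simp
      set d := ∑ y ∈ X, w x y with hd
      have h4 : En w X / s ^ 2 - τ * Real.log s ≤
          (En w X - 2 * d) / (s - 1) ^ 2 - τ * Real.log (s - 1) := by
        have : F (X.erase x) = (En w X - 2 * d) / (s - 1) ^ 2 - τ * Real.log (s - 1) := by
          show En w (X.erase x) / ((X.erase x).card : ℝ) ^ 2 - τ * Real.log (X.erase x).card = _
          rw [En_erase hsym hdiag hx, hcard]
        rw [← this]
        exact h3
      have hne : s - 1 ≠ 0 := by linarith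
      have hl : Real.log s - Real.log (s - 1) ≤ 1 / (s - 1) := by
        rw [← Real.log_div (by linarith) (by linarith)]
        have := Real.log_le_sub_one_of_pos (show 0 < s / (s - 1) from div_pos hs0 (by linarith))
        have e : s / (s - 1) - 1 = 1 / (s - 1) := by
          field_simp
          ring
        linarith
      -- clear denominators
      have hs1' : 0 < s - 1 := by linarith
      have h5 : 2 * d / (s - 1) ^ 2 ≤ En w X / (s - 1) ^ 2 - En w X / s ^ 2 + τ * (1 / (s - 1)) := by
        have e : (En w X - 2 * d) / (s - 1) ^ 2 = En w X / (s - 1) ^ 2 - 2 * d / (s - 1) ^ 2 := by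
          rw [sub_div]
        rw [e] at h4
        have : τ * (Real.log s - Real.log (s - 1)) ≤ τ * (1 / (s - 1)) :=
          mul_le_mul_of_nonneg_left hl hτ.le
        linarith
      have h6 : 2 * d ≤ En w X - En w X * ((s - 1) ^ 2 / s ^ 2) + τ * (s - 1) := by
        have h7 := mul_le_mul_of_nonneg_right h5 (sq_nonneg (s - 1))
        have e1 : 2 * d / (s - 1) ^ 2 * (s - 1) ^ 2 = 2 * d := by field_simp
        have e2 : (En w X / (s - 1) ^ 2 - En w X / s ^ 2 + τ * (1 / (s - 1))) * (s - 1) ^ 2 =
            En w X - En w X * ((s - 1) ^ 2 / s ^ 2) + τ * (s - 1) := by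
          field_simp
        rw [e1, e2] at h7
        exact h7
      have h8 : En w X - En w X * ((s - 1) ^ 2 / s ^ 2) ≤ 2 * (c * s) := by
        have e : En w X - En w X * ((s - 1) ^ 2 / s ^ 2) = En w X / s ^ 2 * (2 * s - 1) := by
          field_simp
          ring
        rw [e]
        have h9 : En w X / s ^ 2 ≤ c := by
          rw [div_le_iff₀ (by positivity)]; exact hEs
        have h10 : 0 ≤ En w X / s ^ 2 := div_nonneg (hE0 X) (by positivity)
        nlinarith
      nlinarith

end Pool.Agent.T2H11.SM
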