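import Pool.Agent.T2H11.SM.Prob

set_option autoImplicit false

/-!
# The second moment computation
-/

open Finset

namespace Pool.Agent.T2H11.SM

variable {V : Type} [Fintype V] [LinearOrder V] {k : ℕ}

/-- the edges inside `S` -/
def Es (S : Finset V) : Finset (Sym2 V) := S.sym2.filter (fun e => ¬ e.IsDiag)

omit [Fintype V] in
lemma mk_mem_es {S : Finset V} {x y : V} : s(x, y) ∈ Es S ↔ x ∈ S ∧ y ∈ S ∧ x ≠ y := by
  unfold Es
  rw [mem_filter, mk_mem_sym2_iff, Sym2.mk_isDiag_iff]
  tauto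

lemma es_sub (S : Finset V) : Es S ⊆ Ed V := by
  intro e he
  exact mem_ed.2 (mem_filter.1 he).2

omit [Fintype V] in
lemma es_inter (S T : Finset V) : Es S ∩ Es T = Es (S ∩ T) := by
  ext e
  induction e using Sym2.ind with
  | _ x y =>
    rw [mem_inter, mk_mem_es, mk_mem_es, mk_mem_es, mem_inter, mem_inter]
    tauto

omit [Fintype V] in
lemma isClique_of {S : Finset V} {G : SimpleGraph V} (h : (Es S : Set (Sym2 V)) ⊆ G.edgeSet) :
    G.IsClique (S : Set V) := by
  intro x hx y hy hxy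
  exact h (mem_coe.2 (mk_mem_es.2 ⟨hx, hy, hxy⟩))

/-- weights of pairs of vertices -/
def wt (u : Sym2 V → ℝ) (x y : V) : ℝ := if x = y then 0 else u s(x, y)

omit [Fintype V] in
lemma wt_symm (u : Sym2 V → ℝ) (x y : V) : wt u x y = wt u y x := by
  unfold wt
  by_cases h : x = y
  · rw [if_pos h, if_pos h.symm]
  · rw [if_neg h, if_neg (Ne.symm h), Sym2.eq_swap]

omit [Fintype V] in
lemma two_W (u : Sym2 V → ℝ) (S : Finset V) :
    2 * ∑ e ∈ Es S, u e = ∑ x ∈ S, ∑ y ∈ S, wt u x y := by
  have h1 : ∀ x y : V, wt u x y =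
      (if x < y then u s(x, y) else 0) + (if y < x then u s(y, x) else 0) := by
    intro x y
    unfold wt
    rcases lt_trichotomy x y with h | h | h
    · rw [if_neg h.ne, if_pos h, if_neg h.le.not_gt, add_zero]
    · rw [if_pos h, h, if_neg (lt_irrefl _), add_zero]
    · rw [if_neg h.ne', if_neg h.le.not_gt, if_pos h, zero_add, Sym2.eq_swap]
  have h2 : ∑ x ∈ S, ∑ y ∈ S, wt u x y = 2 * ∑ x ∈ S, ∑ y ∈ S, if x < y then u s(x, y) else 0 := by
    have : ∑ x ∈ S, ∑ y ∈ S, wt u x y = ∑ x ∈ S, ∑ y ∈ S, (if x < y then u s(x, y) else 0) +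
        ∑ x ∈ S, ∑ y ∈ S, (if y < x then u s(y, x) else 0) := by
      rw [← sum_add_distrib]
      refine sum_congr rfl fun x _ => ?_
      rw [← sum_add_distrib]
      exact sum_congr rfl fun y _ => h1 x y
    rw [this, sum_comm (s := S) (t := S) (f := fun x y => if y < x then u s(y, x) else 0)]
    ring
  rw [h2]
  congr 1
  unfold Es
  rw [sum_sym2_filter_not_isDiag, sum_filter, ← sum_product']
  have h3 : S.offDiag ⊆ S ×ˢ S := fun z hz => by
    rw [mem_offDiag] at hz
    exact mem_product.2 ⟨hz.1, hz.2.1⟩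
  refine sum_subset h3 fun z hz hz2 => ?_
  rw [mem_offDiag] at hz2
  rw [mem_product] at hz
  rw [if_neg]
  intro hlt
  exact hz2 ⟨hz.1, hz.2, hlt.ne⟩

omit [Fintype V] in
/-- weights of parts of typical tuples -/
lemma W_le {u : Sym2 V → ℝ} (hu : ∀ x y, 0 ≤ wt u x y) {X : Finset V} {C : ℝ} {f : Fin k → V}
    (hf : f ∈ Good (wt u) X k C) {I : Finset V} (hI : I ⊆ univ.image f) :
    ∑ e ∈ Es I, u e ≤ C / 2 * I.card := by
  obtain ⟨-, hinj, hC⟩ := mem_good.1 hf
  have h1 := two_W u I
  have h2 : ∑ x ∈ I, ∑ y ∈ I, wt u x y ≤ ∑ x ∈ I, C := by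
    refine sum_le_sum fun x hx => ?_
    refine (sum_le_sum_of_subset_of_nonneg hI fun y _ _ => hu x y).trans ?_
    rw [sum_image (fun a _ b _ hab => hinj hab)]
    obtain ⟨i, -, rfl⟩ := mem_image.1 (hI hx)
    exact hC i
  rw [sum_const, nsmul_eq_mul] at h2
  linarith

omit [Fintype V] in
/-- sum over the second tuple -/
lemma sum_second {u : Sym2 V → ℝ} (hu : ∀ x y, 0 ≤ wt u x y) {X : Finset V} (hX : X.Nonempty)
    {C : ℝ} {f : Fin k → V} (hf : f ∈ Good (wt u) X k C) :
    ∑ g ∈ Good (wt u) X k C, Real.exp (∑ e ∈ Es (univ.image f ∩ univ.image g), u e) ≤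
      (X.card : ℝ) ^ k * Real.exp (k ^ 2 * Real.exp (C / 2) / X.card) := by
  set s : ℝ := (X.card : ℝ) with hs
  have hs0 : 0 < s := by rw [hs]; exact_mod_cast hX.card_pos
  set S := univ.image f with hS
  obtain ⟨hfX, hinj, -⟩ := mem_good.1 hf
  have hSX : S ⊆ X := by
    intro x hx
    obtain ⟨i, -, rfl⟩ := mem_image.1 hx
    exact hfX i
  have hSc : S.card = k := by
    rw [hS, card_image_of_injective _ hinj, card_univ, Fintype.card_fin]
  have h1 : ∀ g ∈ Good (wt u) X k C, Real.exp (∑ e ∈ Es (S ∩ univ.image g), u e) ≤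
      ∏ j, (if g j ∈ S then Real.exp (C / 2) else 1) := by
    intro g hg
    obtain ⟨-, hginj, -⟩ := mem_good.1 hg
    have h2 := W_le hu hf (I := S ∩ univ.image g) inter_subset_left
    have h3 : S ∩ univ.image g = (univ.filter (fun j => g j ∈ S)).image g := by
      ext x
      constructor
      · intro hx
        obtain ⟨hx1, hx2⟩ := mem_inter.1 hx
        obtain ⟨j, -, rfl⟩ := mem_image.1 hx2
        exact mem_image.2 ⟨j, mem_filter.2 ⟨mem_univ _, hx1⟩, rfl⟩
      · intro hx
        obtain ⟨j, hj, rfl⟩ := mem_image.1 hx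
        exact mem_inter.2 ⟨(mem_filter.1 hj).2, mem_image.2 ⟨j, mem_univ _, rfl⟩⟩
    rw [prod_ite, prod_const_one, mul_one, prod_const, ← Real.exp_nat_mul]
    apply Real.exp_le_exp.2
    refine h2.trans (le_of_eq ?_)
    rw [h3, card_image_of_injective _ hginj]
    ring
  have h2 : ∀ g ∈ Tup X k, (0:ℝ) ≤ ∏ j, (if g j ∈ S then Real.exp (C / 2) else 1) := by
    intro g _
    exact prod_nonneg fun j _ => by split_ifs <;> positivity
  have h3 : Good (wt u) X k C ⊆ Tup X k := by
    unfold Good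
    exact filter_subset _ _
  refine (sum_le_sum h1).trans ((sum_le_sum_of_subset_of_nonneg h3 fun g hg _ => h2 g hg).trans ?_)
  unfold Tup
  rw [sum_prod_piFinset X (fun _ x => if x ∈ S then Real.exp (C / 2) else 1), prod_const, card_univ,
    Fintype.card_fin]
  have h4 : ∑ x ∈ X, (if x ∈ S then Real.exp (C / 2) else 1) ≤ s * (1 + k * Real.exp (C / 2) / s) := by
    have h5 : ∀ x ∈ X, (if x ∈ S then Real.exp (C / 2) else 1) ≤
        1 + if x ∈ S then Real.exp (C / 2) else 0 := by
      intro x _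
      split_ifs
      · linarith
      · linarith
    refine (sum_le_sum h5).trans ?_
    rw [sum_add_distrib, sum_const, nsmul_eq_mul, mul_one, ← hs, ← sum_filter, sum_const,
      nsmul_eq_mul]
    have h6 : X.filter (fun x => x ∈ S) = S := by
      ext x
      rw [mem_filter]
      exact ⟨fun h => h.2, fun h => ⟨hSX h, h⟩⟩
    rw [h6, hSc]
    apply le_of_eq
    field_simp
  have h5 : (0:ℝ) ≤ ∑ x ∈ X, (if x ∈ S then Real.exp (C / 2) else 1) :=
    sum_nonneg fun x _ => by split_ifs <;> positivity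
  refine (pow_le_pow_left₀ h5 h4 k).trans ?_
  rw [mul_pow]
  refine mul_le_mul_of_nonneg_left ?_ (by positivity)
  have h6 : 1 + k * Real.exp (C / 2) / s ≤ Real.exp (k * Real.exp (C / 2) / s) := by
    have := Real.add_one_le_exp (k * Real.exp (C / 2) / s)
    linarith
  have h7 : (0:ℝ) ≤ 1 + k * Real.exp (C / 2) / s := by positivity
  refine (pow_le_pow_left₀ h7 h6 k).trans ?_
  rw [← Real.exp_nat_mul]
  apply Real.exp_le_exp.2
  apply le_of_eq
  ring

/-- **Second moment bound.** -/
theorem prob_clique {p : Sym2 V → ℝ} (hp0 : ∀ e, ¬ e.IsDiag → 0 < p e)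
    (hp1 : ∀ e, ¬ e.IsDiag → p e ≤ 1) {X : Finset V} (hX : X.Nonempty) {C : ℝ}
    (hg : 0 < (Good (wt fun e => -Real.log (p e)) X k C).card) :
    ((Good (wt fun e => -Real.log (p e)) X k C).card : ℝ) / (X.card : ℝ) ^ k *
      Real.exp (-(k ^ 2 * Real.exp (C / 2) / X.card)) ≤ prob p (fun G => ¬ G.CliqueFree k) := by
  classical
  set u : Sym2 V → ℝ := fun e => -Real.log (p e) with hu
  set 𝒢 := Good (wt u) X k C with h𝒢
  have hu0 : ∀ x y, 0 ≤ wt u x y := by
    intro x y
    unfold wt
    split_ifs with h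
    · exact le_rfl
    · have hd : ¬ (s(x, y) : Sym2 V).IsDiag := by simpa using h
      exact neg_nonneg.2 (Real.log_nonpos (hp0 _ hd).le (hp1 _ hd))
  let W : (Fin k → V) → ℝ := fun f => ∑ e ∈ Es (univ.image f), u e
  have hprod : ∀ S : Finset V, ∏ e ∈ Es S, p e = Real.exp (-∑ e ∈ Es S, u e) := by
    intro S
    rw [← sum_neg_distrib, Real.exp_sum]
    refine prod_congr rfl fun e he => ?_
    rw [hu, neg_neg, Real.exp_log (hp0 e (mem_ed.1 (es_sub S he)))]
  let Z : SimpleGraph V → ℝ := fun G => ∑ f ∈ 𝒢, Real.exp (W f) *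
    (if (Es (univ.image f) : Set (Sym2 V)) ⊆ G.edgeSet then 1 else 0)
  have hw : ∀ G ∈ (univ : Finset (SimpleGraph V)), 0 ≤ weight p G := fun G _ =>
    weight_nonneg (fun e he => (hp0 e he).le) hp1 G
  have hsm := second_moment (univ : Finset (SimpleGraph V)) (weight p) Z hw
  -- first moment
  have h1 : ∑ G : SimpleGraph V, weight p G * Z G = 𝒢.card := by
    have e1 : ∀ G : SimpleGraph V, weight p G * Z G = ∑ f ∈ 𝒢, Real.exp (W f) *
        (if (Es (univ.image f) : Set (Sym2 V)) ⊆ G.edgeSet then weight p G else 0) := by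
      intro G
      rw [mul_sum]
      refine sum_congr rfl fun f _ => ?_
      split_ifs
      · ring
      · ring
    rw [sum_congr rfl fun G _ => e1 G, sum_comm]
    have e2 : ∀ f ∈ 𝒢, ∑ G : SimpleGraph V, Real.exp (W f) *
        (if (Es (univ.image f) : Set (Sym2 V)) ⊆ G.edgeSet then weight p G else 0) = 1 := by
      intro f _
      rw [← mul_sum, prob_subset p (es_sub _), hprod, ← Real.exp_add, add_neg_cancel, Real.exp_zero]
    rw [sum_congr rfl e2, sum_const, nsmul_eq_mul, mul_one]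
  -- second moment
  have h2 : ∑ G : SimpleGraph V, weight p G * Z G ^ 2 ≤ 𝒢.card * ((X.card : ℝ) ^ k *
      Real.exp (k ^ 2 * Real.exp (C / 2) / X.card)) := by
    have e1 : ∀ G : SimpleGraph V, weight p G * Z G ^ 2 = ∑ f ∈ 𝒢, ∑ g ∈ 𝒢,
        Real.exp (W f + W g) *
        (if ((Es (univ.image f) ∪ Es (univ.image g) : Finset (Sym2 V)) : Set (Sym2 V)) ⊆
          G.edgeSet then weight p G else 0) := by
      intro G
      rw [sq, sum_mul_sum, mul_sum]
      refine sum_congr rfl fun f _ => ?_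
      rw [mul_sum]
      refine sum_congr rfl fun g _ => ?_
      rw [coe_union, Real.exp_add]
      by_cases ha : (Es (univ.image f) : Set (Sym2 V)) ⊆ G.edgeSet
      · by_cases hb : (Es (univ.image g) : Set (Sym2 V)) ⊆ G.edgeSet
        · rw [if_pos ha, if_pos hb, if_pos (Set.union_subset ha hb)]
          ring
        · rw [if_neg hb, if_neg (fun h => hb (Set.subset_union_right.trans h))]
          ring
      · rw [if_neg ha, if_neg (fun h => ha (Set.subset_union_left.trans h))]
        ring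
    rw [sum_congr rfl fun G _ => e1 G, sum_comm]
    have e2 : ∀ f ∈ 𝒢, ∑ G : SimpleGraph V, ∑ g ∈ 𝒢, Real.exp (W f + W g) *
        (if ((Es (univ.image f) ∪ Es (univ.image g) : Finset (Sym2 V)) : Set (Sym2 V)) ⊆
          G.edgeSet then weight p G else 0) ≤ (X.card : ℝ) ^ k *
          Real.exp (k ^ 2 * Real.exp (C / 2) / X.card) := by
      intro f hf
      rw [sum_comm]
      refine le_trans (le_of_eq ?_) (sum_second hu0 hX hf)
      refine sum_congr rfl fun g _ => ?_
      rw [← mul_sum, prob_subset p (union_subset (es_sub _) (es_sub _))]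
      have e3 := prod_union_inter (s₁ := Es (univ.image f)) (s₂ := Es (univ.image g)) (f := p)
      rw [es_inter, hprod, hprod, hprod] at e3
      have e4 : ∏ e ∈ Es (univ.image f) ∪ Es (univ.image g), p e =
          Real.exp (-W f) * Real.exp (-W g) *
            Real.exp (∑ e ∈ Es (univ.image f ∩ univ.image g), u e) := by
        have e5 : Real.exp (-∑ e ∈ Es (univ.image f ∩ univ.image g), u e) *
            Real.exp (∑ e ∈ Es (univ.image f ∩ univ.image g), u e) = 1 := by
          rw [← Real.exp_add, neg_add_cancel, Real.exp_zero]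
        calc ∏ e ∈ Es (univ.image f) ∪ Es (univ.image g), p e
            = (∏ e ∈ Es (univ.image f) ∪ Es (univ.image g), p e) *
              (Real.exp (-∑ e ∈ Es (univ.image f ∩ univ.image g), u e) *
              Real.exp (∑ e ∈ Es (univ.image f ∩ univ.image g), u e)) := by rw [e5, mul_one]
          _ = _ := by rw [← mul_assoc, e3]
      rw [e4, ← Real.exp_add, ← Real.exp_add, ← Real.exp_add]
      congr 1
      ring
    refine (sum_le_sum e2).trans ?_
    rw [sum_const, nsmul_eq_mul]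
  -- the event
  have h3 : (∑ G : SimpleGraph V, if Z G ≠ 0 then weight p G else 0) ≤
      prob p (fun G => ¬ G.CliqueFree k) := by
    unfold prob
    refine sum_le_sum fun G _ => ?_
    by_cases hz : Z G ≠ 0
    · rw [if_pos hz]
      obtain ⟨f, hf, hne⟩ := exists_ne_zero_of_sum_ne_zero hz
      have hsub : (Es (univ.image f) : Set (Sym2 V)) ⊆ G.edgeSet := by
        by_contra hcon
        rw [if_neg hcon, mul_zero] at hne
        exact hne rfl
      rw [if_pos]
      intro hfree
      refine hfree (univ.image f) ⟨isClique_of hsub, ?_⟩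
      rw [card_image_of_injective _ (mem_good.1 hf).2.1, card_univ, Fintype.card_fin]
    · rw [if_neg hz]
      split_ifs
      · exact hw G (mem_univ _)
      · exact le_rfl
  rw [h1] at hsm
  set P := prob p (fun G => ¬ G.CliqueFree k) with hP
  set R := ∑ G : SimpleGraph V, if Z G ≠ 0 then weight p G else 0 with hR
  have hR0 : 0 ≤ R := sum_nonneg fun G hG => by
    split_ifs
    · exact hw G hG
    · exact le_rfl
  have hg0 : (0:ℝ) < 𝒢.card := by exact_mod_cast hg
  have hs0 : (0:ℝ) < X.card := by exact_mod_cast hX.card_pos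
  have h4 : (𝒢.card : ℝ) ^ 2 ≤ 𝒢.card * ((X.card : ℝ) ^ k *
      Real.exp (k ^ 2 * Real.exp (C / 2) / X.card)) * P :=
    hsm.trans (mul_le_mul h2 h3 hR0 (by positivity))
  have h5 : (𝒢.card : ℝ) ≤ (X.card : ℝ) ^ k * Real.exp (k ^ 2 * Real.exp (C / 2) / X.card) * P := by
    have : (𝒢.card : ℝ) * 𝒢.card ≤ 𝒢.card * ((X.card : ℝ) ^ k *
      Real.exp (k ^ 2 * Real.exp (C / 2) / X.card) * P) := by
      rw [← sq]; linarith
    exact le_of_mul_le_mul_left this hg0
  rw [Real.exp_neg, ← div_eq_mul_inv, div_div, div_le_iff₀ (by positivity)]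
  linarith

end Pool.Agent.T2H11.SM
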