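import Pool.Agent.T2H11.SM.Tuples

set_option autoImplicit false

/-!
# Random colourings with independent edges
-/

open Finset

namespace Pool.Agent.T2H11.SM

variable {V : Type} [Fintype V] [DecidableEq V]

/-- the edges of the complete graph on `V` -/
def Ed (V : Type) [Fintype V] [DecidableEq V] : Finset (Sym2 V) := univ.filter (fun e => ¬ e.IsDiag)

lemma mem_ed {e : Sym2 V} : e ∈ Ed V ↔ ¬ e.IsDiag := by simp [Ed]

open Classical in
/-- probability of the graph `G` when `e` is an edge with probability `p e`, independently -/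
noncomputable def weight (p : Sym2 V → ℝ) (G : SimpleGraph V) : ℝ :=
  ∏ e ∈ Ed V, if e ∈ G.edgeSet then p e else 1 - p e

open Classical in
/-- probability of the property `Q` -/
noncomputable def prob (p : Sym2 V → ℝ) (Q : SimpleGraph V → Prop) : ℝ :=
  ∑ G : SimpleGraph V, if Q G then weight p G else 0

open Classical in
/-- the edges of `G` -/
noncomputable def toA (G : SimpleGraph V) : Finset (Sym2 V) := (Ed V).filter (fun e => e ∈ G.edgeSet)

lemma mem_toA {G : SimpleGraph V} {e : Sym2 V} : e ∈ toA G ↔ e ∈ G.edgeSet := by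
  classical
  unfold toA
  rw [mem_filter, mem_ed]
  exact ⟨fun h => h.2, fun h => ⟨G.not_isDiag_of_mem_edgeSet h, h⟩⟩

lemma sum_graph (f : SimpleGraph V → ℝ) :
    ∑ G, f G = ∑ A ∈ (Ed V).powerset, f (SimpleGraph.fromEdgeSet (A : Set (Sym2 V))) := by
  have h1 : ∀ G : SimpleGraph V, SimpleGraph.fromEdgeSet (toA G : Set (Sym2 V)) = G := by
    intro G
    ext x y
    rw [SimpleGraph.fromEdgeSet_adj, mem_coe, mem_toA, SimpleGraph.mem_edgeSet]
    exact ⟨fun h => h.1, fun h => ⟨h, h.ne⟩⟩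
  refine sum_bij' (fun G _ => toA G)
    (fun A _ => SimpleGraph.fromEdgeSet (A : Set (Sym2 V))) ?_ ?_ ?_ ?_ ?_
  · intro G _
    rw [mem_powerset]
    intro e he
    exact mem_ed.2 (G.not_isDiag_of_mem_edgeSet (mem_toA.1 he))
  · intro A _
    exact mem_univ _
  · intro G _
    exact h1 G
  · intro A hA
    rw [mem_powerset] at hA
    ext e
    rw [mem_toA, SimpleGraph.edgeSet_fromEdgeSet, Set.mem_sdiff, mem_coe, Sym2.mem_diagSet]
    exact ⟨fun h => h.1, fun h => ⟨h, mem_ed.1 (hA h)⟩⟩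
  · intro G _
    rw [h1 G]

lemma mem_from {A : Finset (Sym2 V)} (hA : A ⊆ Ed V) {e : Sym2 V} :
    e ∈ (SimpleGraph.fromEdgeSet (A : Set (Sym2 V))).edgeSet ↔ e ∈ A := by
  rw [SimpleGraph.edgeSet_fromEdgeSet, Set.mem_sdiff, mem_coe, Sym2.mem_diagSet]
  exact ⟨fun h => h.1, fun h => ⟨h, mem_ed.1 (hA h)⟩⟩

lemma weight_from (p : Sym2 V → ℝ) {A : Finset (Sym2 V)} (hA : A ⊆ Ed V) :
    weight p (SimpleGraph.fromEdgeSet (A : Set (Sym2 V))) =
      (∏ e ∈ A, p e) * ∏ e ∈ Ed V \ A, (1 - p e) := by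
  classical
  unfold weight
  rw [← union_sdiff_of_subset hA, prod_union disjoint_sdiff]
  congr 1
  · exact prod_congr rfl fun e he => by rw [if_pos ((mem_from hA).2 he)]
  · rw [union_sdiff_of_subset hA]
    exact prod_congr rfl fun e he => by
      rw [if_neg (fun h => (mem_sdiff.1 he).2 ((mem_from hA).1 h))]

open Classical in
/-- the probability that all edges of `F` are present -/
theorem prob_subset (p : Sym2 V → ℝ) {F : Finset (Sym2 V)} (hF : F ⊆ Ed V) :
    ∑ G : SimpleGraph V, (if (F : Set (Sym2 V)) ⊆ G.edgeSet then weight p G else 0) =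
      ∏ e ∈ F, p e := by
  rw [sum_graph]
  have h1 : ∏ e ∈ Ed V, (p e + if e ∈ F then 0 else 1 - p e) = ∏ e ∈ F, p e := by
    rw [← union_sdiff_of_subset hF, prod_union disjoint_sdiff]
    have h2 : ∏ e ∈ Ed V \ F, (p e + if e ∈ F then 0 else 1 - p e) = 1 :=
      prod_eq_one fun e he => by rw [if_neg (mem_sdiff.1 he).2]; ring
    rw [h2, mul_one]
    exact prod_congr rfl fun e he => by rw [if_pos he, add_zero]
  rw [← h1, prod_add]
  refine sum_congr rfl fun A hA => ?_
  rw [mem_powerset] at hA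
  rw [weight_from p hA]
  split_ifs with h
  · congr 1
    refine prod_congr rfl fun e he => ?_
    rw [if_neg]
    intro heF
    exact (mem_sdiff.1 he).2 ((mem_from hA).1 (h (mem_coe.2 heF)))
  · have : ∃ e ∈ F, e ∉ A := by
      by_contra hcon
      push Not at hcon
      exact h fun e he => (mem_from hA).2 (hcon e (mem_coe.1 he))
    obtain ⟨e, heF, heA⟩ := this
    have h3 : ∏ e ∈ Ed V \ A, (if e ∈ F then (0:ℝ) else 1 - p e) = 0 :=
      prod_eq_zero (mem_sdiff.2 ⟨hF heF, heA⟩) (by rw [if_pos heF])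
    rw [h3, mul_zero]

lemma weight_nonneg {p : Sym2 V → ℝ} (hp0 : ∀ e, ¬ e.IsDiag → 0 ≤ p e)
    (hp1 : ∀ e, ¬ e.IsDiag → p e ≤ 1) (G : SimpleGraph V) : 0 ≤ weight p G := by
  unfold weight
  refine prod_nonneg fun e he => ?_
  have h0 := hp0 e (mem_ed.1 he)
  have h1 := hp1 e (mem_ed.1 he)
  split_ifs <;> linarith

/-- the total mass is one -/
lemma sum_weight (p : Sym2 V → ℝ) : ∑ G : SimpleGraph V, weight p G = 1 := by
  classical
  have h := prob_subset p (F := ∅) (empty_subset _)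
  rw [prod_empty] at h
  rw [← h]
  refine sum_congr rfl fun G _ => ?_
  rw [if_pos]
  simp

open Classical in
/-- The second moment method. -/
lemma second_moment {ι : Type} (s : Finset ι) (a Z : ι → ℝ) (ha : ∀ i ∈ s, 0 ≤ a i) :
    (∑ i ∈ s, a i * Z i) ^ 2 ≤
      (∑ i ∈ s, a i * Z i ^ 2) * ∑ i ∈ s, if Z i ≠ 0 then a i else 0 := by
  have h1 := sum_mul_sq_le_sq_mul_sq s (fun i => Real.sqrt (a i) * Z i)
    (fun i => if Z i ≠ 0 then Real.sqrt (a i) else 0)
  have h2 : ∑ i ∈ s, Real.sqrt (a i) * Z i * (if Z i ≠ 0 then Real.sqrt (a i) else 0) =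
      ∑ i ∈ s, a i * Z i := by
    refine sum_congr rfl fun i hi => ?_
    split_ifs with h
    · rw [mul_right_comm, Real.mul_self_sqrt (ha i hi)]
    · push Not at h
      rw [h]; simp
  have h3 : ∑ i ∈ s, (Real.sqrt (a i) * Z i) ^ 2 = ∑ i ∈ s, a i * Z i ^ 2 := by
    refine sum_congr rfl fun i hi => ?_
    rw [mul_pow, Real.sq_sqrt (ha i hi)]
  have h4 : ∑ i ∈ s, (if Z i ≠ 0 then Real.sqrt (a i) else 0) ^ 2 =
      ∑ i ∈ s, if Z i ≠ 0 then a i else 0 := by
    refine sum_congr rfl fun i hi => ?_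
    split_ifs with h
    · rw [Real.sq_sqrt (ha i hi)]
    · simp
  rw [h2, h3, h4] at h1
  exact h1

end Pool.Agent.T2H11.SM
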