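import Pool.Agent.T2H11.SM.Final

set_option autoImplicit false

/-!
# Monochromatic cliques in random colourings, smoothed Ramsey numbers
-/

open Finset Filter Topology

namespace Pool.Agent.T2H11.SM

section compl

variable {V : Type} [Fintype V] [DecidableEq V]

lemma mem_compl_edgeSet (G : SimpleGraph V) {e : Sym2 V} (he : ¬ e.IsDiag) :
    e ∈ Gᶜ.edgeSet ↔ e ∉ G.edgeSet := by
  induction e using Sym2.ind with
  | _ x y =>
    rw [SimpleGraph.mem_edgeSet, SimpleGraph.mem_edgeSet, SimpleGraph.compl_adj]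
    rw [Sym2.mk_isDiag_iff] at he
    exact ⟨fun h => h.2, fun h => ⟨he, h⟩⟩

lemma weight_compl (p : Sym2 V → ℝ) (G : SimpleGraph V) :
    weight p G = weight (fun e => 1 - p e) Gᶜ := by
  unfold weight
  refine prod_congr rfl fun e he => ?_
  have h := mem_compl_edgeSet G (mem_ed.1 he)
  by_cases h1 : e ∈ G.edgeSet
  · rw [if_pos h1, if_neg (fun h2 => (h.1 h2) h1)]; ring
  · rw [if_neg h1, if_pos (h.2 h1)]

lemma prob_compl (p : Sym2 V → ℝ) (Q : SimpleGraph V → Prop) :
    prob p (fun G => Q Gᶜ) = prob (fun e => 1 - p e) Q := by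
  classical
  unfold prob
  refine sum_bij' (fun G _ => Gᶜ) (fun G _ => Gᶜ) (fun _ _ => mem_univ _) (fun _ _ => mem_univ _)
    (fun G _ => compl_compl G) (fun G _ => compl_compl G) ?_
  intro G _
  rw [weight_compl]

lemma prob_eq (p : Sym2 V → ℝ) (Q : SimpleGraph V → Prop) [DecidablePred Q] :
    prob p Q = ∑ G : SimpleGraph V, if Q G then weight p G else 0 := by
  unfold prob
  refine sum_congr rfl fun G _ => ?_
  by_cases h : Q G
  · rw [if_pos h, if_pos h]
  · rw [if_neg h, if_neg h]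

lemma prob_mono {p : Sym2 V → ℝ} (hp0 : ∀ e, ¬ e.IsDiag → 0 ≤ p e)
    (hp1 : ∀ e, ¬ e.IsDiag → p e ≤ 1) {Q R : SimpleGraph V → Prop} (h : ∀ G, Q G → R G) :
    prob p Q ≤ prob p R := by
  classical
  unfold prob
  refine sum_le_sum fun G _ => ?_
  have := weight_nonneg hp0 hp1 G
  by_cases hQ : Q G
  · rw [if_pos hQ, if_pos (h G hQ)]
  · rw [if_neg hQ]
    split_ifs
    · exact this
    · exact le_rfl

lemma prob_or_le {p : Sym2 V → ℝ} (hp0 : ∀ e, ¬ e.IsDiag → 0 ≤ p e)
    (hp1 : ∀ e, ¬ e.IsDiag → p e ≤ 1) (Q R : SimpleGraph V → Prop) :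
    prob p (fun G => Q G ∨ R G) ≤ prob p Q + prob p R := by
  classical
  unfold prob
  rw [← sum_add_distrib]
  refine sum_le_sum fun G _ => ?_
  have := weight_nonneg hp0 hp1 G
  by_cases hQ : Q G
  · by_cases hR : R G
    · rw [if_pos (Or.inl hQ), if_pos hQ, if_pos hR]; linarith
    · rw [if_pos (Or.inl hQ), if_pos hQ, if_neg hR]; linarith
  · by_cases hR : R G
    · rw [if_pos (Or.inr hR), if_neg hQ, if_pos hR]; linarith
    · rw [if_neg (not_or.2 ⟨hQ, hR⟩), if_neg hQ, if_neg hR]; linarith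

lemma card_ed (n : ℕ) : (Ed (Fin n)).card = n.choose 2 := by
  have h := Sym2.card_subtype_not_diag (α := Fin n)
  rw [Fintype.card_fin, Fintype.card_subtype] at h
  rw [← h]
  rfl

end compl

/-- the average of `w` over the edges of `K_n` -/
noncomputable def average {n : ℕ} (w : Sym2 (Fin n) → ℝ) : ℝ := (∑ e ∈ Ed (Fin n), w e) / n.choose 2

lemma choose_two_le (n : ℕ) : ((n.choose 2 : ℕ) : ℝ) ≤ (n : ℝ) ^ 2 / 2 := by
  rw [Nat.cast_choose_two]
  nlinarith [Nat.cast_nonneg (α := ℝ) n]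

lemma sum_eq_average {n : ℕ} (hn : 2 ≤ n) (w : Sym2 (Fin n) → ℝ) :
    ∑ e ∈ Ed (Fin n), w e = average w * n.choose 2 := by
  unfold average
  have : (0:ℝ) < n.choose 2 := by exact_mod_cast Nat.choose_pos hn
  field_simp

lemma average_le {n : ℕ} (hn : 2 ≤ n) {w : Sym2 (Fin n) → ℝ} {M : ℝ}
    (h : ∀ e, ¬ e.IsDiag → w e ≤ M) : average w ≤ M := by
  unfold average
  have : (0:ℝ) < n.choose 2 := by exact_mod_cast Nat.choose_pos hn
  rw [div_le_iff₀ this, ← card_ed, mul_comm, ← nsmul_eq_mul, ← sum_const]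
  exact sum_le_sum fun e he => h e (mem_ed.1 he)

lemma average_nonneg {n : ℕ} {w : Sym2 (Fin n) → ℝ} (h : ∀ e, ¬ e.IsDiag → 0 ≤ w e) :
    0 ≤ average w :=
  div_nonneg (sum_nonneg fun e he => h e (mem_ed.1 he)) (Nat.cast_nonneg _)

lemma average_add {n : ℕ} (w w' : Sym2 (Fin n) → ℝ) :
    average (fun e => w e + w' e) = average w + average w' := by
  unfold average
  rw [sum_add_distrib, add_div]

/-- one colour, all edge probabilities at least `δ` -/
theorem red_whp {δ ε : ℝ} (hδ : 0 < δ) (hε : 0 < ε) :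
    ∃ K : ℕ, ∀ k : ℕ, K ≤ k → ∀ (n : ℕ) (p : Sym2 (Fin n) → ℝ),
      (∀ e, ¬ e.IsDiag → δ ≤ p e ∧ p e ≤ 1) →
      ∀ c : ℝ, average (fun e => -Real.log (p e)) ≤ c → 0 ≤ c →
      Real.exp ((c / 2 + ε) * k) ≤ n →
      1 - ε ≤ prob p (fun G => ¬ G.CliqueFree k) := by
  set M := max 1 (-Real.log δ) with hM
  have hM1 : 1 ≤ M := le_max_left _ _
  have hMd : Real.exp (-M) ≤ δ := by
    have h1 : Real.exp (-M) ≤ Real.exp (Real.log δ) :=
      Real.exp_le_exp.2 (by linarith [le_max_right 1 (-Real.log δ)])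
    rwa [Real.exp_log hδ] at h1
  have hε' : 0 < min ε 1 := lt_min hε one_pos
  obtain ⟨K, hK⟩ := clique_whp hM1 hε' (min_le_right ε 1)
  refine ⟨max K 1, fun k hk n p hp c hc hc0 hn => ?_⟩
  have hk1 : 1 ≤ k := le_trans (le_max_right _ _) hk
  have hkr : (1:ℝ) ≤ k := by exact_mod_cast hk1
  have hn1 : (1:ℝ) < n := by
    refine lt_of_lt_of_le ?_ hn
    rw [← Real.exp_zero]
    apply Real.exp_lt_exp.2
    positivity
  have hn2 : 2 ≤ n := by
    have : 1 < n := by exact_mod_cast hn1
    omega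
  have hp0 : ∀ e, ¬ e.IsDiag → 0 < p e := fun e he => hδ.trans_le (hp e he).1
  have hav0 : 0 ≤ average (fun e => -Real.log (p e)) := average_nonneg fun e he =>
    neg_nonneg.2 (Real.log_nonpos (hp0 e he).le (hp e he).2)
  have havM : average (fun e => -Real.log (p e)) ≤ M := average_le hn2 fun e he => by
    have h1 := Real.log_le_log hδ (hp e he).1
    linarith [le_max_right 1 (-Real.log δ)]
  have h := hK k (le_trans (le_max_left _ _) hk) (Fin n) p (average (fun e => -Real.log (p e)))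
    (fun e he => ⟨hMd.trans (hp e he).1, (hp e he).2⟩) hav0 havM (by
      rw [sum_eq_average hn2, Fintype.card_fin]
      exact mul_le_mul_of_nonneg_left (choose_two_le n) hav0) (by
      rw [Fintype.card_fin]
      refine le_trans (Real.exp_le_exp.2 ?_) hn
      have h2 : min ε 1 ≤ ε := min_le_left _ _
      nlinarith)
  have h2 : min ε 1 ≤ ε := min_le_left _ _
  linarith

/-- **Monochromatic cliques.** -/
theorem mono_whp {δ ε : ℝ} (hδ : 0 < δ) (hε : 0 < ε) :
    ∃ K : ℕ, ∀ k : ℕ, K ≤ k → ∀ (n : ℕ) (p : Sym2 (Fin n) → ℝ),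
      (∀ e, ¬ e.IsDiag → δ ≤ p e ∧ p e ≤ 1 - δ) →
      Real.exp ((average (fun e => Real.log (1 / (p e * (1 - p e)))) / 4 + ε) * k) ≤ n →
      1 - ε ≤ prob p (fun G => ¬ (G.CliqueFree k ∧ Gᶜ.CliqueFree k)) := by
  obtain ⟨K, hK⟩ := red_whp hδ hε
  refine ⟨K, fun k hk n p hp hn => ?_⟩
  set A := average (fun e => Real.log (1 / (p e * (1 - p e)))) with hA
  have hp0 : ∀ e, ¬ e.IsDiag → 0 < p e := fun e he => hδ.trans_le (hp e he).1
  have hq0 : ∀ e, ¬ e.IsDiag → 0 < 1 - p e := fun e he => by linarith [(hp e he).2]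
  have hAs : A = average (fun e => -Real.log (p e)) + average (fun e => -Real.log (1 - p e)) := by
    rw [← average_add, hA]
    unfold average
    congr 1
    refine sum_congr rfl fun e he => ?_
    have h1 := hp0 e (mem_ed.1 he)
    have h2 := hq0 e (mem_ed.1 he)
    show Real.log (1 / (p e * (1 - p e))) = -Real.log (p e) + -Real.log (1 - p e)
    rw [one_div, Real.log_inv, Real.log_mul h1.ne' h2.ne']
    ring
  have hA0 : 0 ≤ A := by
    rw [hAs]
    exact add_nonneg
      (average_nonneg fun e he => neg_nonneg.2 (Real.log_nonpos (hp0 e he).le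
        (by linarith [hq0 e he])))
      (average_nonneg fun e he => neg_nonneg.2 (Real.log_nonpos (hq0 e he).le
        (by linarith [hp0 e he])))
  have hn' : Real.exp ((A / 2 / 2 + ε) * k) ≤ n := by
    have : A / 2 / 2 = A / 4 := by ring
    rw [this]; exact hn
  rcases le_total (average (fun e => -Real.log (p e))) (average (fun e => -Real.log (1 - p e)))
    with h | h
  · have h1 := hK k hk n p (fun e he => ⟨(hp e he).1, by linarith [hq0 e he]⟩) (A / 2)
      (by linarith) (by linarith) hn'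
    refine h1.trans (prob_mono (fun e he => (hp0 e he).le) (fun e he => by linarith [hq0 e he]) ?_)
    exact fun G h2 h3 => h2 h3.1
  · have h1 := hK k hk n (fun e => 1 - p e)
      (fun e he => ⟨by linarith [(hp e he).2], by linarith [hp0 e he]⟩) (A / 2)
      (by linarith) (by linarith) hn'
    rw [← prob_compl] at h1
    refine h1.trans (prob_mono (fun e he => (hp0 e he).le) (fun e he => by linarith [hq0 e he]) ?_)
    exact fun G h2 h3 => h2 h3.2

/-- the random perturbation of the colouring `H`: the colour of every edge is changed with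
probability `δ` -/
noncomputable def noise {V : Type} (δ : ℝ) (H : SimpleGraph V) (e : Sym2 V) : ℝ := by
  classical
  exact if e ∈ H.edgeSet then 1 - δ else δ

section lower

variable {V : Type} [Fintype V]

lemma weight_noise [DecidableEq V] (δ : ℝ) (G H : SimpleGraph V) :
    weight (noise δ H) G = weight (noise δ G) H := by
  classical
  unfold weight noise
  refine prod_congr rfl fun e _ => ?_
  by_cases h1 : e ∈ G.edgeSet <;> by_cases h2 : e ∈ H.edgeSet <;> simp [h1, h2]

lemma sum_noise [DecidableEq V] (δ : ℝ) (Q : SimpleGraph V → Prop) [DecidablePred Q] :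
    ∑ H : SimpleGraph V, prob (noise δ H) Q = ((univ.filter Q).card : ℝ) := by
  rw [sum_congr rfl fun H _ => prob_eq (noise δ H) Q, sum_comm]
  have h1 : ∀ G : SimpleGraph V, ∑ H : SimpleGraph V, (if Q G then weight (noise δ H) G else 0) =
      if Q G then 1 else 0 := by
    intro G
    split_ifs with h
    · rw [sum_congr rfl fun H _ => weight_noise δ G H, sum_weight]
    · simp
  rw [← sum_boole]
  exact sum_congr rfl fun G _ => h1 G

lemma prob_half [DecidableEq V] (Q : SimpleGraph V → Prop) [DecidablePred Q] :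
    prob (fun _ => 1 / 2) Q = (1 / 2) ^ (Ed V).card * ((univ.filter Q).card : ℝ) := by
  rw [prob_eq]
  have h1 : ∀ G : SimpleGraph V, weight (fun _ => (1:ℝ) / 2) G = (1 / 2) ^ (Ed V).card := by
    intro G
    unfold weight
    rw [← prod_const]
    refine prod_congr rfl fun e _ => ?_
    split_ifs <;> norm_num
  rw [← sum_boole, mul_sum]
  refine sum_congr rfl fun G _ => ?_
  rw [h1]
  by_cases h : Q G
  · rw [if_pos h, if_pos h, mul_one]
  · rw [if_neg h, if_neg h, mul_zero]

/-- some base colouring is at least as good as the uniformly random colouring -/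
lemma exists_noise_lt [DecidableEq V] (δ : ℝ) (Q : SimpleGraph V → Prop)
    (h : prob (fun _ => 1 / 2) Q < 1 / 2) : ∃ H : SimpleGraph V, prob (noise δ H) Q < 1 / 2 := by
  classical
  by_contra hcon
  push Not at hcon
  have h1 := sum_noise δ Q
  have h2 : (∑ _H : SimpleGraph V, (1:ℝ) / 2) ≤ ∑ H : SimpleGraph V, prob (noise δ H) Q :=
    sum_le_sum fun H _ => hcon H
  rw [h1, sum_const, nsmul_eq_mul] at h2
  have h3 := prob_half (V := V) (fun _ => True)
  have h4 : prob (fun _ => (1:ℝ) / 2) (fun _ : SimpleGraph V => True) = 1 := by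
    rw [prob_eq]
    refine (sum_congr rfl fun G _ => if_pos trivial).trans ?_
    exact sum_weight (V := V) (fun _ => (1:ℝ) / 2)
  rw [h4, filter_true] at h3
  rw [prob_half] at h
  have h5 : (0:ℝ) < (1 / 2) ^ (Ed V).card := by positivity
  have h6 := mul_le_mul_of_nonneg_left h2 h5.le
  nlinarith

end lower

/-- first moment bound for the uniformly random colouring -/
lemma prob_half_clique {n k : ℕ} :
    prob (fun _ : Sym2 (Fin n) => 1 / 2) (fun G => ¬ G.CliqueFree k) ≤
      (n : ℝ) ^ k * (2 : ℝ) ^ (-((k : ℝ) * (k - 1) / 2)) := by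
  classical
  rw [prob_eq]
  have h1 : ∀ G : SimpleGraph (Fin n),
      (if ¬ G.CliqueFree k then weight (fun _ => (1:ℝ) / 2) G else 0) ≤
      ∑ S ∈ powersetCard k (univ : Finset (Fin n)),
        if (Es S : Set (Sym2 (Fin n))) ⊆ G.edgeSet then weight (fun _ => (1:ℝ) / 2) G else 0 := by
    intro G
    have hw : 0 ≤ weight (fun _ => (1:ℝ) / 2) G :=
      weight_nonneg (fun _ _ => by norm_num) (fun _ _ => by norm_num) G
    have hnn : ∀ S ∈ powersetCard k (univ : Finset (Fin n)), 0 ≤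
        (if (Es S : Set (Sym2 (Fin n))) ⊆ G.edgeSet then weight (fun _ => (1:ℝ) / 2) G else 0) := by
      intro S _
      split_ifs
      · exact hw
      · exact le_rfl
    split_ifs with h
    · exact sum_nonneg hnn
    · unfold SimpleGraph.CliqueFree at h
      push Not at h
      obtain ⟨S, hS⟩ := h
      have hSk : S ∈ powersetCard k (univ : Finset (Fin n)) :=
        mem_powersetCard.2 ⟨subset_univ _, hS.2⟩
      refine le_trans ?_ (single_le_sum hnn hSk)
      rw [if_pos]
      intro e he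
      induction e using Sym2.ind with
      | _ x y =>
        obtain ⟨hx, hy, hxy⟩ := mk_mem_es.1 (mem_coe.1 he)
        exact hS.1 hx hy hxy
  refine (sum_le_sum fun G _ => h1 G).trans ?_
  rw [sum_comm]
  have h2 : ∀ S ∈ powersetCard k (univ : Finset (Fin n)), ∑ G : SimpleGraph (Fin n),
      (if (Es S : Set (Sym2 (Fin n))) ⊆ G.edgeSet then weight (fun _ => (1:ℝ) / 2) G else 0) =
      (2 : ℝ) ^ (-((k : ℝ) * (k - 1) / 2)) := by
    intro S hS
    rw [prob_subset _ (es_sub S), prod_const]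
    have h3 := two_W (fun _ => (1:ℝ)) S
    rw [sum_const, nsmul_eq_mul, mul_one] at h3
    have h4 : ∑ x ∈ S, ∑ y ∈ S, wt (fun _ => (1:ℝ)) x y = k * (k - 1) := by
      have h5 : ∀ x ∈ S, ∑ y ∈ S, wt (fun _ => (1:ℝ)) x y = k - 1 := by
        intro x hx
        unfold wt
        have : ∀ y ∈ S, (if x = y then (0:ℝ) else 1) = 1 - if x = y then 1 else 0 := by
          intro y _
          split_ifs <;> ring
        rw [sum_congr rfl this, sum_sub_distrib, sum_ite_eq, if_pos hx, sum_const, nsmul_eq_mul,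
          mul_one, (mem_powersetCard.1 hS).2]
      rw [sum_congr rfl h5, sum_const, nsmul_eq_mul, (mem_powersetCard.1 hS).2]
    rw [h4] at h3
    have h5 : ((Es S).card : ℝ) = (k : ℝ) * (k - 1) / 2 := by linarith
    rw [Real.rpow_neg (by norm_num), ← h5, Real.rpow_natCast, one_div, inv_pow]
  rw [sum_congr rfl h2, sum_const, nsmul_eq_mul, card_powersetCard, card_univ, Fintype.card_fin]
  refine mul_le_mul_of_nonneg_right ?_ (by positivity)
  exact_mod_cast Nat.choose_le_pow n k

/-- below `2 ^ (k / 2) / 4` vertices the noise does not force monochromatic cliques -/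
lemma prob_half_small {n k : ℕ} (hk : 2 ≤ k) (hn : (n : ℝ) ≤ 2 ^ ((k : ℝ) / 2) / 4) :
    prob (fun _ : Sym2 (Fin n) => 1 / 2) (fun G => ¬ (G.CliqueFree k ∧ Gᶜ.CliqueFree k)) <
      1 / 2 := by
  have hkr : (2:ℝ) ≤ k := by exact_mod_cast hk
  have h1 : prob (fun _ : Sym2 (Fin n) => 1 / 2)
      (fun G => ¬ (G.CliqueFree k ∧ Gᶜ.CliqueFree k)) ≤
      2 * ((n : ℝ) ^ k * (2 : ℝ) ^ (-((k : ℝ) * (k - 1) / 2))) := by
    have h2 : prob (fun _ : Sym2 (Fin n) => 1 / 2)
        (fun G => ¬ (G.CliqueFree k ∧ Gᶜ.CliqueFree k)) ≤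
        prob (fun _ : Sym2 (Fin n) => 1 / 2) (fun G => ¬ G.CliqueFree k ∨ ¬ Gᶜ.CliqueFree k) :=
      prob_mono (fun _ _ => by norm_num) (fun _ _ => by norm_num) fun G h => not_and_or.1 h
    have h3 := prob_or_le (p := fun _ : Sym2 (Fin n) => (1:ℝ) / 2) (fun _ _ => by norm_num)
      (fun _ _ => by norm_num) (fun G => ¬ G.CliqueFree k) (fun G => ¬ Gᶜ.CliqueFree k)
    have h4 := prob_compl (fun _ : Sym2 (Fin n) => (1:ℝ) / 2) (fun G => ¬ G.CliqueFree k)
    have h5 : (fun _ : Sym2 (Fin n) => (1:ℝ) - 1 / 2) = fun _ => 1 / 2 := by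
      funext e; norm_num
    rw [h5] at h4
    rw [h4] at h3
    have h6 := prob_half_clique (n := n) (k := k)
    linarith
  refine lt_of_le_of_lt h1 ?_
  have h2 : (n : ℝ) ^ k ≤ (2:ℝ) ^ ((k : ℝ) * k / 2 - 2 * k) := by
    refine (pow_le_pow_left₀ (Nat.cast_nonneg n) hn k).trans (le_of_eq ?_)
    have e4 : (4:ℝ) = 2 ^ (2:ℝ) := by norm_num
    rw [e4, ← Real.rpow_sub (by norm_num), ← Real.rpow_natCast, ← Real.rpow_mul (by norm_num)]
    congr 1
    ring
  have h3 : (n : ℝ) ^ k * (2 : ℝ) ^ (-((k : ℝ) * (k - 1) / 2)) ≤ (2:ℝ) ^ (-(3:ℝ)) := by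
    refine (mul_le_mul_of_nonneg_right h2 (by positivity)).trans ?_
    rw [← Real.rpow_add (by norm_num)]
    apply Real.rpow_le_rpow_of_exponent_le (by norm_num)
    nlinarith
  have h4 : (2:ℝ) ^ (-(3:ℝ)) = 1 / 8 := by
    rw [Real.rpow_neg (by norm_num)]; norm_num
  rw [h4] at h3
  linarith

end Pool.Agent.T2H11.SM
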