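import Pool.Agent.T2H11.SM.Ramsey

set_option autoImplicit false

/-!
# Smoothed Ramsey numbers
-/

open Finset Filter Topology

namespace Pool.Agent.T2H11.SM

/-- the smoothed Ramsey number -/
noncomputable def sR (δ : ℝ) (k : ℕ) : ℕ :=
  sInf {N : ℕ | ∀ n : ℕ, N ≤ n → ∀ H : SimpleGraph (Fin n),
    1 / 2 ≤ prob (noise δ H) (fun G => ¬ (G.CliqueFree k ∧ Gᶜ.CliqueFree k))}

lemma noise_cases {V : Type} (δ : ℝ) (H : SimpleGraph V) (e : Sym2 V) :
    noise δ H e = 1 - δ ∨ noise δ H e = δ := by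
  classical
  unfold noise
  by_cases h : e ∈ H.edgeSet
  · left; rw [if_pos h]
  · right; rw [if_neg h]

lemma average_noise {n : ℕ} (hn : 2 ≤ n) (δ : ℝ) (H : SimpleGraph (Fin n)) :
    average (fun e => Real.log (1 / (noise δ H e * (1 - noise δ H e)))) =
      Real.log (1 / (δ * (1 - δ))) := by
  unfold average
  have h1 : ∀ e ∈ Ed (Fin n), Real.log (1 / (noise δ H e * (1 - noise δ H e))) =
      Real.log (1 / (δ * (1 - δ))) := by
    intro e _
    rcases noise_cases δ H e with h | h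
    · rw [h]
      congr 2
      ring
    · rw [h]
  rw [sum_congr rfl h1, sum_const, card_ed, nsmul_eq_mul]
  have : (0:ℝ) < n.choose 2 := by exact_mod_cast Nat.choose_pos hn
  field_simp

lemma const_eq {δ : ℝ} (h0 : 0 < δ) (h1 : δ < 1) :
    Real.log (1 / (δ * (1 - δ))) / 4 = Real.log 2 / 2 + Real.log (1 / (4 * (δ * (1 - δ)))) / 4 := by
  have h2 : 0 < δ * (1 - δ) := mul_pos h0 (by linarith)
  rw [one_div, one_div, Real.log_inv, Real.log_inv, Real.log_mul (by norm_num) h2.ne']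
  have h4 : Real.log 4 = 2 * Real.log 2 := by
    rw [show (4:ℝ) = 2 ^ (2:ℕ) by norm_num, Real.log_pow]; norm_num
  rw [h4]
  ring

theorem smoothed {δ : ℝ} (hδ : 0 < δ) (hδ2 : δ ≤ 1 / 2) {ε : ℝ} (hε : 0 < ε) :
    ∃ K : ℕ, ∀ k : ℕ, K ≤ k → Real.log 2 / 2 - ε ≤ Real.log (sR δ k) / k ∧
      Real.log (sR δ k) / k ≤ Real.log 2 / 2 + Real.log (1 / (4 * (δ * (1 - δ)))) / 4 + ε := by
  have hε' : 0 < min (ε / 2) (1 / 2) := lt_min (by positivity) (by norm_num)
  obtain ⟨K, hK⟩ := mono_whp hδ hε'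
  obtain ⟨K2, hK2⟩ := exists_nat_gt (Real.log 4 / (ε / 2))
  refine ⟨max K (max K2 2), fun k hk => ?_⟩
  have hk1 : K ≤ k := le_trans (le_max_left _ _) hk
  have hk2 : K2 ≤ k := le_trans (le_trans (le_max_left _ _) (le_max_right _ _)) hk
  have hk3 : 2 ≤ k := le_trans (le_trans (le_max_right _ _) (le_max_right _ _)) hk
  have hkr : (2:ℝ) ≤ k := by exact_mod_cast hk3
  have hk0 : (0:ℝ) < k := by linarith
  have hlog4 : Real.log 4 ≤ ε / 2 * k := by
    have h1 : Real.log 4 / (ε / 2) ≤ k := hK2.le.trans (by exact_mod_cast hk2)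
    rw [div_le_iff₀ (by positivity)] at h1
    linarith
  set c := Real.log (1 / (δ * (1 - δ))) / 4 with hc
  have hd : 0 < δ * (1 - δ) := mul_pos hδ (by linarith)
  have hc0 : 0 ≤ c := by
    have : 0 ≤ Real.log (1 / (δ * (1 - δ))) := by
      apply Real.log_nonneg
      rw [le_div_iff₀ hd]
      nlinarith [sq_nonneg (δ - 1 / 2)]
    positivity
  set E := Real.exp ((c + ε / 2) * k) with hE
  have hE1 : 1 < E := by
    rw [hE, ← Real.exp_zero]
    apply Real.exp_lt_exp.2
    positivity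
  have hmem : ⌈E⌉₊ ∈ {N : ℕ | ∀ n : ℕ, N ≤ n → ∀ H : SimpleGraph (Fin n),
      1 / 2 ≤ prob (noise δ H) (fun G => ¬ (G.CliqueFree k ∧ Gᶜ.CliqueFree k))} := by
    intro n hn H
    have hnE : E ≤ n := Nat.ceil_le.1 hn
    have hn2 : 2 ≤ n := by
      have : (1:ℝ) < n := hE1.trans_le hnE
      have : 1 < n := by exact_mod_cast this
      omega
    have h1 := hK k hk1 n (noise δ H) (fun e _ => by
      rcases noise_cases δ H e with h | h
      · rw [h]; constructor <;> linarith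
      · rw [h]; constructor <;> linarith) (by
      rw [average_noise hn2]
      refine le_trans (Real.exp_le_exp.2 ?_) hnE
      have : min (ε / 2) (1 / 2) ≤ ε / 2 := min_le_left _ _
      refine mul_le_mul_of_nonneg_right ?_ hk0.le
      linarith)
    have h2 : min (ε / 2) (1 / 2) ≤ 1 / 2 := min_le_right _ _
    linarith
  have hupper : sR δ k ≤ ⌈E⌉₊ := Nat.sInf_le hmem
  have hin := Nat.sInf_mem ⟨_, hmem⟩
  have hlower : (2:ℝ) ^ ((k : ℝ) / 2) / 4 < sR δ k := by
    by_contra hcon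
    push Not at hcon
    have h1 := exists_noise_lt (V := Fin (sR δ k)) δ
      (fun G => ¬ (G.CliqueFree k ∧ Gᶜ.CliqueFree k)) (prob_half_small hk3 hcon)
    obtain ⟨H, hH⟩ := h1
    have h2 := hin (sR δ k) le_rfl H
    linarith
  have hpow : (0:ℝ) < (2:ℝ) ^ ((k : ℝ) / 2) / 4 := by positivity
  have hsR0 : (0:ℝ) < sR δ k := hpow.trans hlower
  constructor
  · rw [le_div_iff₀ hk0]
    have h1 := Real.log_le_log hpow hlower.le
    rw [Real.log_div (by positivity) (by norm_num), Real.log_rpow (by norm_num)] at h1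
    nlinarith
  · rw [← const_eq hδ (by linarith), ← hc, div_le_iff₀ hk0]
    have h1 : (sR δ k : ℝ) ≤ 2 * E := by
      have h2 : (sR δ k : ℝ) ≤ ⌈E⌉₊ := by exact_mod_cast hupper
      have h3 := Nat.ceil_lt_add_one (a := E) (by linarith)
      linarith
    have h2 := Real.log_le_log hsR0 h1
    rw [Real.log_mul (by norm_num) (by linarith), hE, Real.log_exp] at h2
    have h3 : Real.log 2 ≤ Real.log 4 := Real.log_le_log (by norm_num) (by norm_num)
    nlinarith

end Pool.Agent.T2H11.SM
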