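import Pool.Agent.T2H11.SM.Energy

set_option autoImplicit false

/-!
# Typical tuples
-/

open Finset

namespace Pool.Agent.T2H11.SM

variable {V : Type} [DecidableEq V] {k : ℕ}

/-- all `k`-tuples of elements of `X` -/
def Tup (X : Finset V) (k : ℕ) : Finset (Fin k → V) := Fintype.piFinset fun _ => X

lemma mem_tup {X : Finset V} {f : Fin k → V} : f ∈ Tup X k ↔ ∀ i, f i ∈ X := Fintype.mem_piFinset

lemma card_tup (X : Finset V) (k : ℕ) : (Tup X k).card = X.card ^ k := by
  simp [Tup]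

/-- product formula with the `i`-th entry fixed -/
lemma fibre_sum (X : Finset V) (i : Fin k) (φ : V → V → ℝ) :
    ∑ f ∈ Tup X k, ∏ j ∈ univ.erase i, φ (f i) (f j) = ∑ x ∈ X, (∑ y ∈ X, φ x y) ^ (k - 1) := by
  rw [← sum_fiberwise_of_maps_to (s := Tup X k) (t := X) (g := fun f => f i)
    (fun f hf => mem_tup.1 hf i)]
  refine sum_congr rfl fun x hx => ?_
  have h1 : (Tup X k).filter (fun f => f i = x) =
      Fintype.piFinset (Function.update (fun _ => X) i {x}) :=
    (Fintype.piFinset_update_singleton_eq_filter_piFinset_eq (fun _ => X) i hx).symm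
  rw [h1]
  have h2 : ∀ f ∈ Fintype.piFinset (Function.update (fun _ : Fin k => X) i {x}),
      ∏ j ∈ univ.erase i, φ (f i) (f j) = ∏ j, (if j = i then 1 else φ x (f j)) := by
    intro f hf
    have h3 : f i = x := by
      have := Fintype.mem_piFinset.1 hf i
      rw [Function.update_self, mem_singleton] at this
      exact this
    rw [← mul_prod_erase univ _ (mem_univ i), if_pos rfl, one_mul, h3]
    refine prod_congr rfl fun j hj => ?_
    rw [if_neg (ne_of_mem_erase hj)]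
  rw [sum_congr rfl h2, ← prod_univ_sum (Function.update (fun _ : Fin k => X) i {x})
    (fun j y => if j = i then 1 else φ x y)]
  rw [← mul_prod_erase univ _ (mem_univ i), Function.update_self, sum_singleton, if_pos rfl, one_mul]
  have h4 : ∀ j ∈ univ.erase i, (∑ y ∈ Function.update (fun _ : Fin k => X) i {x} j,
      (if j = i then 1 else φ x y)) = ∑ y ∈ X, φ x y := by
    intro j hj
    rw [Function.update_of_ne (ne_of_mem_erase hj)]
    refine sum_congr rfl fun y _ => ?_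
    rw [if_neg (ne_of_mem_erase hj)]
  rw [prod_congr rfl h4, prod_const, card_erase_of_mem (mem_univ i), card_univ, Fintype.card_fin]

lemma pow_sub_le {s : ℝ} (hs : 1 ≤ s) (m : ℕ) : s ^ m - m * s ^ (m - 1) ≤ (s - 1) ^ m := by
  induction m with
  | zero => simp
  | succ m ih =>
    rcases m.eq_zero_or_pos with rfl | hm
    · simp
    · obtain ⟨m', rfl⟩ : ∃ m', m = m' + 1 := ⟨m - 1, by omega⟩
      rw [Nat.add_sub_cancel] at ih ⊢
      have h1 : (s - 1) ^ (m' + 1 + 1) = (s - 1) * (s - 1) ^ (m' + 1) := by ring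
      rw [h1]
      have h2 : (s - 1) * (s ^ (m' + 1) - ((m' + 1 : ℕ) : ℝ) * s ^ m') ≤
          (s - 1) * (s - 1) ^ (m' + 1) := mul_le_mul_of_nonneg_left ih (by linarith)
      have h3 : (0:ℝ) ≤ s ^ m' := by positivity
      push_cast at h2 ⊢
      have h4 : (0:ℝ) ≤ (m':ℝ) * s ^ m' := by positivity
      ring_nf at h2 ⊢
      nlinarith

/-- collisions with the `i`-th entry are rare -/
lemma bad_a (X : Finset V) (hX : X.Nonempty) (i : Fin k) :
    (((Tup X k).filter (fun f => ¬ ∀ j ∈ univ.erase i, f j ≠ f i)).card : ℝ) ≤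
      k * (X.card : ℝ) ^ (k - 1) := by
  have hk : 0 < k := i.pos
  have h1 := fibre_sum X i (fun x y => if y = x then (0:ℝ) else 1)
  have h2 : ∀ f : Fin k → V, (∏ j ∈ univ.erase i, if f j = f i then (0:ℝ) else 1) =
      if (∀ j ∈ univ.erase i, f j ≠ f i) then 1 else 0 := by
    intro f
    split_ifs with h
    · exact prod_eq_one fun j hj => by rw [if_neg (h j hj)]
    · push Not at h
      obtain ⟨j, hj, he⟩ := h
      exact prod_eq_zero hj (by rw [if_pos he])
  rw [sum_congr rfl (fun f _ => h2 f), sum_boole] at h1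
  set s : ℝ := (X.card : ℝ) with hs
  have hs1 : 1 ≤ s := by rw [hs]; exact_mod_cast hX.card_pos
  have h3 : ∀ x ∈ X, (∑ y ∈ X, if y = x then (0:ℝ) else 1) = s - 1 := by
    intro x hx
    have : ∀ y ∈ X, (if y = x then (0:ℝ) else 1) = 1 - (if y = x then (1:ℝ) else 0) := by
      intro y _
      split_ifs <;> ring
    rw [sum_congr rfl this, sum_sub_distrib, sum_ite_eq' X x, if_pos hx, sum_const, nsmul_eq_mul,
      mul_one]
  have h4 : ∑ x ∈ X, (∑ y ∈ X, if y = x then (0:ℝ) else 1) ^ (k - 1) = s * (s - 1) ^ (k - 1) := by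
    rw [sum_congr rfl (fun x hx => by rw [h3 x hx]), sum_const, nsmul_eq_mul]
  rw [h4] at h1
  have h5 : (((Tup X k).filter (fun f => ∀ j ∈ univ.erase i, f j ≠ f i)).card : ℝ) +
      ((Tup X k).filter (fun f => ¬ ∀ j ∈ univ.erase i, f j ≠ f i)).card = s ^ k := by
    rw [← Nat.cast_add, card_filter_add_card_filter_not, card_tup]
    push_cast
    rfl
  rw [h1] at h5
  have h6 := pow_sub_le hs1 (k - 1)
  obtain ⟨m, rfl⟩ : ∃ m, k = m + 1 := ⟨k - 1, by omega⟩
  rw [Nat.add_sub_cancel] at *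
  have h7 := mul_le_mul_of_nonneg_left h6 (by linarith : (0:ℝ) ≤ s)
  have h8 : s * (s ^ m - m * s ^ (m - 1)) ≥ s ^ (m + 1) - m * s ^ m := by
    rcases m.eq_zero_or_pos with rfl | hm
    · simp
    · obtain ⟨m', rfl⟩ : ∃ m', m = m' + 1 := ⟨m - 1, by omega⟩
      rw [Nat.add_sub_cancel]
      apply le_of_eq
      ring
  have h9 : (0:ℝ) ≤ s ^ m := by positivity
  push_cast
  nlinarith

/-- large potentials are rare -/
lemma bad_b (X : Finset V) {w : V → V → ℝ} {M c C l : ℝ} (hw0 : ∀ x y, 0 ≤ w x y)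
    (hwM : ∀ x y, w x y ≤ M) (hdiag : ∀ x, w x x = 0) (hl : 0 ≤ l) (hlM : l * M ≤ 1) (hc : 0 ≤ c)
    (hX : ∀ x ∈ X, ∑ y ∈ X, w x y ≤ c * X.card) (i : Fin k) :
    (((Tup X k).filter (fun f => ¬ ∑ j, w (f i) (f j) ≤ C)).card : ℝ) ≤
      (X.card : ℝ) ^ k * Real.exp (k * (l * c + (l * M) ^ 2) - l * C) := by
  have hk : 0 < k := i.pos
  set s : ℝ := (X.card : ℝ) with hs
  have hs0 : 0 ≤ s := by rw [hs]; positivity
  have h1 := fibre_sum X i (fun x y => Real.exp (l * w x y))
  have h2 : ∀ f ∈ Tup X k, (if ¬ ∑ j, w (f i) (f j) ≤ C then (1:ℝ) else 0) ≤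
      (∏ j ∈ univ.erase i, Real.exp (l * w (f i) (f j))) * Real.exp (-(l * C)) := by
    intro f _
    rw [← Real.exp_sum, ← mul_sum, ← Real.exp_add]
    have h3 : ∑ j ∈ univ.erase i, w (f i) (f j) = ∑ j, w (f i) (f j) := by
      rw [← add_sum_erase univ _ (mem_univ i), hdiag, zero_add]
    rw [h3]
    split_ifs with h
    · positivity
    · push Not at h
      rw [← Real.exp_zero]
      apply Real.exp_le_exp.2
      nlinarith
  have h3 := sum_le_sum h2
  rw [sum_boole, ← sum_mul, h1] at h3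
  refine h3.trans ?_
  have h4 : ∀ x ∈ X, ∑ y ∈ X, Real.exp (l * w x y) ≤ s * Real.exp (l * c + (l * M) ^ 2) := by
    intro x hx
    have h5 : ∀ y ∈ X, Real.exp (l * w x y) ≤ 1 + l * w x y + (l * M) ^ 2 := by
      intro y _
      have hu0 : 0 ≤ l * w x y := mul_nonneg hl (hw0 x y)
      have hu1 : l * w x y ≤ l * M := mul_le_mul_of_nonneg_left (hwM x y) hl
      have h6 := Real.abs_exp_sub_one_sub_id_le (x := l * w x y)
        (by rw [abs_of_nonneg hu0]; linarith)
      have h7 := (abs_le.1 h6).2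
      nlinarith
    refine (sum_le_sum h5).trans ?_
    rw [sum_add_distrib, sum_add_distrib, ← mul_sum, sum_const, sum_const, nsmul_eq_mul,
      nsmul_eq_mul, mul_one, ← hs]
    have h6 := mul_le_mul_of_nonneg_left (hX x hx) hl
    have h7 := Real.add_one_le_exp (l * c + (l * M) ^ 2)
    have h8 := mul_le_mul_of_nonneg_left h7 hs0
    nlinarith
  have h5 : ∑ x ∈ X, (∑ y ∈ X, Real.exp (l * w x y)) ^ (k - 1) ≤
      s * (s * Real.exp (l * c + (l * M) ^ 2)) ^ (k - 1) := by
    calc ∑ x ∈ X, (∑ y ∈ X, Real.exp (l * w x y)) ^ (k - 1)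
        ≤ ∑ x ∈ X, (s * Real.exp (l * c + (l * M) ^ 2)) ^ (k - 1) := by
          refine sum_le_sum fun x hx => ?_
          exact pow_le_pow_left₀ (sum_nonneg fun y _ => (Real.exp_pos _).le) (h4 x hx) _
      _ = _ := by rw [sum_const, nsmul_eq_mul]
  refine (mul_le_mul_of_nonneg_right h5 (Real.exp_pos _).le).trans ?_
  obtain ⟨m, rfl⟩ : ∃ m, k = m + 1 := ⟨k - 1, by omega⟩
  rw [Nat.add_sub_cancel, mul_pow, ← Real.exp_nat_mul]
  have h6 : s * (s ^ m * Real.exp (m * (l * c + (l * M) ^ 2))) * Real.exp (-(l * C)) =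
      s ^ (m + 1) * Real.exp (m * (l * c + (l * M) ^ 2) - l * C) := by
    rw [sub_eq_add_neg, Real.exp_add]
    ring
  rw [h6]
  refine mul_le_mul_of_nonneg_left (Real.exp_le_exp.2 ?_) (by positivity)
  push_cast
  have : 0 ≤ l * c + (l * M) ^ 2 := by positivity
  nlinarith

/-- the typical tuples -/
noncomputable def Good (w : V → V → ℝ) (X : Finset V) (k : ℕ) (C : ℝ) : Finset (Fin k → V) := by
  classical
  exact (Tup X k).filter (fun f => ∀ i, (∀ j ∈ univ.erase i, f j ≠ f i) ∧ ∑ j, w (f i) (f j) ≤ C)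

lemma mem_good {w : V → V → ℝ} {X : Finset V} {C : ℝ} {f : Fin k → V} :
    f ∈ Good w X k C ↔ (∀ i, f i ∈ X) ∧ Function.Injective f ∧ ∀ i, ∑ j, w (f i) (f j) ≤ C := by
  unfold Good
  rw [mem_filter, mem_tup]
  constructor
  · rintro ⟨h1, h2⟩
    refine ⟨h1, fun i j hij => ?_, fun i => (h2 i).2⟩
    by_contra hne
    exact (h2 j).1 i (mem_erase.2 ⟨hne, mem_univ i⟩) hij
  · rintro ⟨h1, h2, h3⟩
    exact ⟨h1, fun i => ⟨fun j hj he => ne_of_mem_erase hj (h2 he), h3 i⟩⟩

lemma card_good_le (w : V → V → ℝ) (X : Finset V) (k : ℕ) (C : ℝ) :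
    (Good w X k C).card ≤ X.card ^ k := by
  rw [← card_tup]
  unfold Good
  exact card_filter_le _ _

/-- almost all tuples are typical -/
theorem card_good (X : Finset V) (hXn : X.Nonempty) {w : V → V → ℝ} {M c C l : ℝ}
    (hw0 : ∀ x y, 0 ≤ w x y)
    (hwM : ∀ x y, w x y ≤ M) (hdiag : ∀ x, w x x = 0) (hl : 0 ≤ l) (hlM : l * M ≤ 1) (hc : 0 ≤ c)
    (hX : ∀ x ∈ X, ∑ y ∈ X, w x y ≤ c * X.card) :
    (X.card : ℝ) ^ k - k * (k * (X.card : ℝ) ^ (k - 1) +
      (X.card : ℝ) ^ k * Real.exp (k * (l * c + (l * M) ^ 2) - l * C)) ≤ (Good w X k C).card := by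
  classical
  have h1 : Tup X k ⊆ Good w X k C ∪ univ.biUnion (fun i : Fin k =>
      (Tup X k).filter (fun f => ¬ ∀ j ∈ univ.erase i, f j ≠ f i) ∪
      (Tup X k).filter (fun f => ¬ ∑ j, w (f i) (f j) ≤ C)) := by
    intro f hf
    by_cases h : f ∈ Good w X k C
    · exact mem_union_left _ h
    · refine mem_union_right _ ?_
      unfold Good at h
      rw [mem_filter, not_and] at h
      have h2 := h hf
      push Not at h2
      obtain ⟨i, hi⟩ := h2
      rw [mem_biUnion]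
      refine ⟨i, mem_univ i, ?_⟩
      rw [mem_union, mem_filter, mem_filter]
      by_cases h3 : ∀ j ∈ univ.erase i, f j ≠ f i
      · exact Or.inr ⟨hf, not_le.2 (hi h3)⟩
      · exact Or.inl ⟨hf, h3⟩
  have h2 := (card_le_card h1).trans (card_union_le _ _)
  have h3 : ((univ.biUnion (fun i : Fin k =>
      (Tup X k).filter (fun f => ¬ ∀ j ∈ univ.erase i, f j ≠ f i) ∪
      (Tup X k).filter (fun f => ¬ ∑ j, w (f i) (f j) ≤ C))).card : ℝ) ≤
      k * (k * (X.card : ℝ) ^ (k - 1) +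
      (X.card : ℝ) ^ k * Real.exp (k * (l * c + (l * M) ^ 2) - l * C)) := by
    refine (Nat.cast_le.2 card_biUnion_le).trans ?_
    push_cast
    refine (sum_le_sum (g := fun _ => k * (X.card : ℝ) ^ (k - 1) +
      (X.card : ℝ) ^ k * Real.exp (k * (l * c + (l * M) ^ 2) - l * C)) fun i _ => ?_).trans ?_
    · refine (Nat.cast_le.2 (card_union_le _ _)).trans ?_
      rw [Nat.cast_add]
      exact add_le_add (bad_a X hXn i) (bad_b X hw0 hwM hdiag hl hlM hc hX i)
    · rw [sum_const, card_univ, Fintype.card_fin, nsmul_eq_mul]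
  rw [card_tup] at h2
  have h4 : ((X.card ^ k : ℕ) : ℝ) ≤ _ := Nat.cast_le.2 h2
  rw [Nat.cast_add, Nat.cast_pow] at h4
  linarith

end Pool.Agent.T2H11.SM
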